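import Pool.Agent.N424.JB.Loc

/-!
# JB/PTS (helper424, for helper352's project JB): `J(K)` is uniquely divisible by 2
-/

set_option autoImplicit false
set_option linter.all false

open Polynomial IsDedekindDomain
open scoped Classical

namespace Pool.Agent.N424.JB

open Pool.Agent.Y160.SE Pool.Agent.N352.JB
open Pool.Agent.TH115.GD (incl rs ak exists_restrict)

theorem good_two {K : Type} [Field K] {f : K[X]} (h2 : (2 : K) ≠ 0) (hm : f.Monic)
    (hs : f.Separable) (hodd : Odd f.natDegree) : Good 2 (-1 : K) f := by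
  refine ⟨Nat.prime_two, ?_, hm, hs, Nat.coprime_two_left.2 hodd⟩
  have hne : (-1 : K) ≠ 1 := by
    intro h
    apply h2
    linear_combination -h
  refine IsPrimitiveRoot.mk_of_lt (-1 : K) (by norm_num) (by norm_num) ?_
  intro l h0 hl
  have : l = 1 := by omega
  rw [this, pow_one]
  exact hne

theorem LocIm.up {K E : Type} [Field K] [Field E] [Algebra K E] {f h : K[X]} (H : LocIm K f h) :
    LocIm E (f.map (algebraMap K E)) (h.map (algebraMap K E)) := by
  obtain ⟨l, s, hl, hs⟩ := H
  refine ⟨l.map fun p => (p.1.map (algebraMap K E), p.2.map (algebraMap K E)),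
    s.map (algebraMap K E), ?_, ?_⟩
  · intro p hp
    rw [List.mem_map] at hp
    obtain ⟨q, hq, rfl⟩ := hp
    obtain ⟨h1, h2, h3⟩ := hl q hq
    refine ⟨h1.map _, ?_, ?_⟩
    · exact h2.map (mapRingHom (algebraMap K E))
    · have := Polynomial.map_dvd (algebraMap K E) h3
      rwa [Polynomial.map_sub, Polynomial.map_pow] at this
  · have := Polynomial.map_dvd (algebraMap K E) hs
    rw [Polynomial.map_sub, Polynomial.map_pow, Polynomial.map_mul] at this
    have e : ((l.map fun p : K[X] × K[X] => (-1) ^ p.1.natDegree * p.1).prod).map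
        (algebraMap K E) =
        ((l.map fun p : K[X] × K[X] => (p.1.map (algebraMap K E), p.2.map (algebraMap K E))).map
          fun p : E[X] × E[X] => (-1) ^ p.1.natDegree * p.1).prod := by
      rw [← coe_mapRingHom, map_list_prod, List.map_map, List.map_map]
      congr 1
      apply List.map_congr_left
      intro p _
      simp [natDegree_map]
    rw [e] at this
    exact this

/-- **`J(K)` is uniquely divisible by 2.** -/
theorem pts (h1 : S_NRM) (h2 : S_SQL) (h3 : S_COB) (h4 : S_DBL) (h5 : S_INJ) (h6 : S_TOR) :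
    S_PTS := by
  intro K _ f hK2 hm hirr hsep hodd Pl hsel
  have H := hyps
  have hg := good_two hK2 hm hsep hodd
  obtain ⟨hd1, hd2, hd3⟩ := h4 K (SeparableClosure K) f hg
  have hinj := h5 K (SeparableClosure K) f hg
  have hfix : ∀ (x : Jac 2 f K) (σ : SeparableClosure K ≃ₐ[K] SeparableClosure K),
      jm 2 f (ak σ) (jm 2 f (incl K K (SeparableClosure K)) x) =
        jm 2 f (incl K K (SeparableClosure K)) x := by
    intro x σ
    rw [jm_jm]
    congr 1
    congr 1
    exact AlgHom.ext fun y => σ.commutes y
  have hA : ∀ x : Jac 2 f K, 2 • x = 0 → x = 0 := by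
    intro x hx
    apply hinj
    rw [map_zero]
    apply h6 K (SeparableClosure K) f hg hirr
    · rw [hd1, ← map_nsmul, hx, map_zero]
    · exact hfix x
  have hB : ∀ P : Jac 2 f K, ∃ Q0 : Jac 2 f K, 2 • Q0 = P := by
    intro P
    obtain ⟨Q, hQ⟩ := hd3 (jm 2 f (incl K K (SeparableClosure K)) P)
    obtain ⟨c, hc⟩ : ∃ c : (SeparableClosure K ≃ₐ[K] SeparableClosure K) →
        Jac 2 f (SeparableClosure K), c = fun σ => jm 2 f (ak σ) Q - Q := ⟨_, rfl⟩
    have hcT : ∀ σ, Tor hg (c σ) := by
      intro σ
      rw [hd1, hc]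
      simp only
      rw [smul_sub, ← map_nsmul, hQ, hfix, sub_self]
    have hcc : ∀ σ τ, c (σ * τ) = c σ + jm 2 f (ak σ) (c τ) := by
      intro σ τ
      rw [hc]
      simp only
      have e : (ak (σ * τ) : SeparableClosure K →ₐ[K] SeparableClosure K) = (ak σ).comp (ak τ) :=
        AlgHom.ext fun x => rfl
      rw [map_sub, jm_jm, e]
      abel
    obtain ⟨I, G, hIP, hIc, hG, hN⟩ := exists_rep (L := K) H hg P
    have hPe : pe hg (SeparableClosure K) (1 - X) Q = jm 2 f (incl K K (SeparableClosure K)) P := by
      rw [hd2, hQ]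
    obtain ⟨t, ht1, ht2⟩ := kcJ H hg hIP hIc (lp_coprime hG) hN hPe
    have hG' : LP 2 f G := by
      have : f.map (algebraMap K K) = f := Polynomial.map_id
      rw [this] at hG
      exact hG
    have hs : (f.map (algebraMap K (SeparableClosure K))).Splits := splits_up hg
    -- the norm
    obtain ⟨N, hNd⟩ : ∃ N : K, N = Algebra.norm K (AdjoinRoot.mk f G) := ⟨_, rfl⟩
    have hN1 : algebraMap K (SeparableClosure K) N =
        ((f.map (algebraMap K (SeparableClosure K))).roots.map fun e => aeval e G).prod := by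
      rw [hNd]
      exact h1 K (SeparableClosure K) f G hm hs
    have hN0' : ((f.map (algebraMap K (SeparableClosure K))).roots.map fun e => aeval e G).prod ≠ 0 :=
      prod_roots_ne hm.ne_zero fun e he => (ht1 e he).2.1
    have hN0 : N ≠ 0 := by
      intro h0
      rw [h0, map_zero] at hN1
      exact hN0' hN1.symm
    obtain ⟨h, hh⟩ : ∃ h : K[X], h = C N⁻¹ * G ^ f.natDegree := ⟨_, rfl⟩
    have hval : ∀ e : SeparableClosure K, aeval e h =
        (algebraMap K (SeparableClosure K) N)⁻¹ * aeval e G ^ f.natDegree := by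
      intro e
      rw [hh, map_mul, aeval_C, map_inv₀, map_pow]
    have hKum : KumD hg c h t := by
      refine ⟨fun e he => ⟨(ht1 e he).1, ?_⟩, fun σ e he => ?_⟩
      · rw [hval, ← (ht1 e he).2.2, ← hN1]
        have : algebraMap K (SeparableClosure K) N ≠ 0 := by rw [hN1]; exact hN0'
        field_simp
      · have e1 : (rs K σ : SeparableClosure K →ₐ[K] SeparableClosure K) = ak σ :=
          AlgHom.ext fun x => rfl
        have e2 := ht2 σ e he (by
          rw [e1]
          have := hcT σ
          rw [hc] at this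
          exact this)
        rw [e1] at e2
        rw [e2, hc]
    have hnorm : IsSquare (Algebra.norm K (AdjoinRoot.mk f h)) := by
      refine ⟨1, ?_⟩
      apply (algebraMap K (SeparableClosure K)).injective
      rw [h1 K (SeparableClosure K) f h hm hs, mul_one, map_one]
      have e1 : ((f.map (algebraMap K (SeparableClosure K))).roots.map fun e => aeval e h).prod =
          ((f.map (algebraMap K (SeparableClosure K))).roots.map fun e =>
            (algebraMap K (SeparableClosure K) N)⁻¹ * aeval e G ^ f.natDegree).prod := by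
        congr 1
        apply Multiset.map_congr rfl
        intro e _
        exact hval e
      rw [e1, Multiset.prod_map_mul, Multiset.prod_map_pow, Multiset.map_const', Multiset.prod_replicate,
        ← hN1]
      have e2 : (f.map (algebraMap K (SeparableClosure K))).roots.card = f.natDegree := by
        rw [← hs.natDegree_eq_card_roots, natDegree_map]
      rw [e2, ← mul_pow, inv_mul_cancel₀, one_pow]
      rw [hN1]
      exact hN0'
    have hcop : IsCoprime h f := by
      rw [hh]
      refine IsCoprime.mul_left ?_ (lp_coprime hG').pow_left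
      exact ⟨C N, 0, by rw [zero_mul, add_zero, ← C_mul, mul_inv_cancel₀ hN0, C_1]⟩
    have hloc : LocIm K f h := by
      obtain ⟨l, s, hl, hls⟩ := h2 K (SeparableClosure K) f hm hodd hs G hG'
      refine ⟨l, s, hl, ?_⟩
      apply dvd_of_roots (Ω := SeparableClosure K) hsep hs
      intro e he
      have q1 := hls e he
      rw [map_sub, map_mul, map_pow, hval, mul_assoc, q1, ← hN1, sub_eq_zero]
      have : algebraMap K (SeparableClosure K) N ≠ 0 := by rw [hN1]; exact hN0'
      field_simp
    obtain ⟨s, hs2⟩ := hsel h hcop hnorm fun E _ _ _ => LocIm.up hloc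
    obtain ⟨R, hR1, hR2⟩ := h3 K (SeparableClosure K) f hg hirr c hcc hcT h t hKum s hs2
    have hfx : ∀ τ : SeparableClosure K ≃ₐ[K] SeparableClosure K,
        jm 2 f (rs K τ) (Q - R) = Q - R := by
      intro τ
      have e1 : (rs K τ : SeparableClosure K →ₐ[K] SeparableClosure K) = ak τ :=
        AlgHom.ext fun x => rfl
      have e2 := hR2 τ
      rw [hc] at e2
      simp only at e2
      rw [e1, map_sub]
      have e3 : jm 2 f (ak τ) Q = jm 2 f (ak τ) R - R + Q := by rw [← e2]; abel
      rw [e3]
      abel
    obtain ⟨Q0, hQ0⟩ := fixed_class (E := K) H hg (Q - R) hfx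
    refine ⟨Q0, hinj ?_⟩
    rw [map_nsmul, hQ0, smul_sub, hQ, (hd1 R).1 hR1, sub_zero]
  constructor
  · intro P Q hPQ
    have e1 : (2 : ℕ) • (Additive.ofMul P : Jac 2 f K) = 2 • (Additive.ofMul Q : Jac 2 f K) := hPQ
    have e2 : (Additive.ofMul P : Jac 2 f K) - Additive.ofMul Q = 0 := by
      apply hA
      rw [smul_sub, e1, sub_self]
    have e3 : (Additive.ofMul P : Jac 2 f K) = Additive.ofMul Q := sub_eq_zero.1 e2
    exact Additive.ofMul.injective e3
  · intro P
    obtain ⟨Q0, hQ0⟩ := hB (Additive.ofMul P)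
    exact ⟨Additive.toMul Q0, hQ0⟩

end Pool.Agent.N424.JB
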