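import Pool.Agent.N352.JB.Def

/-!
# JB/LOC (helper424, for helper352's project JB): the local condition
-/

set_option autoImplicit false
set_option linter.all false

open Polynomial IsDedekindDomain
open scoped Classical

namespace Pool.Agent.N424.JB

open Pool.Agent.Y160.SE Pool.Agent.N352.JB
open Pool.Agent.TH115.GD (incl rs ak exists_restrict)

section dvd

variable {E Ω : Type} [Field E] [Field Ω] [Algebra E Ω]

theorem rt_up {K : Type} [Field K] [Algebra K E] [Algebra K Ω] [IsScalarTower K E Ω] (f : K[X])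
    (e : Ω) : Rt (f.map (algebraMap K E)) e ↔ Rt f e := by
  unfold Rt
  rw [aeval_map_algebraMap]

theorem rt_mem {f : E[X]} (hf : f ≠ 0) (e : Ω) : Rt f e ↔ e ∈ (f.map (algebraMap E Ω)).roots := by
  rw [mem_roots (Polynomial.map_ne_zero hf), IsRoot.def, eval_map_algebraMap]
  rfl

/-- a separable polynomial divides every polynomial which vanishes at its roots -/
theorem dvd_of_roots {f : E[X]} (hf : f.Separable) (hs : (f.map (algebraMap E Ω)).Splits) {p : E[X]}
    (h : ∀ e : Ω, Rt f e → aeval e p = 0) : f ∣ p := by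
  rw [← Polynomial.map_dvd_map' (algebraMap E Ω)]
  by_cases hp : p = 0
  · rw [hp, Polynomial.map_zero]
    exact dvd_zero _
  have hp' : p.map (algebraMap E Ω) ≠ 0 := Polynomial.map_ne_zero hp
  rw [hs.dvd_iff_roots_le_roots (Polynomial.map_ne_zero hf.ne_zero) hp',
    Multiset.le_iff_subset (nodup_roots hf.map)]
  intro e he
  rw [mem_roots hp', IsRoot.def, eval_map_algebraMap]
  exact h e ((rt_mem hf.ne_zero e).2 he)

theorem prod_roots_ne {f : E[X]} (hf : f ≠ 0) {G : E[X]} (h : ∀ e : Ω, Rt f e → aeval e G ≠ 0) :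
    ((f.map (algebraMap E Ω)).roots.map fun e' => aeval e' G).prod ≠ 0 := by
  refine Multiset.prod_ne_zero ?_
  intro h0
  rw [Multiset.mem_map] at h0
  obtain ⟨e, he, h1⟩ := h0
  exact h e ((rt_mem hf e).2 he) h1

end dvd

/-- **The local condition.** -/
theorem loc (h1 : S_LAG) (h2 : S_SQL) : S_LOC := by
  intro K Ω E Ω' _ _ _ _ _ _ _ _ _ _ _ _ _ f hg c hc2 h b hk ι P hP
  have H := hyps
  have hℓ : (-1 : K) = -1 := rfl
  choose res hres using exists_restrict (F := K) (Ω := Ω) (L := E) (Ω' := Ω') ι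
  have hT : ∀ τ : Ω' ≃ₐ[E] Ω', jm 2 f ι (c (res τ)) = jm 2 f (rs K τ) P - P :=
    fun τ => hP τ (res τ) (hres τ)
  have hTT : ∀ τ : Ω' ≃ₐ[E] Ω', Tor hg (jm 2 f (rs K τ) P - P) := by
    intro τ
    rw [← hT]
    exact (hc2 _).map ι
  have hPP : ∀ τ : Ω' ≃ₐ[E] Ω', jm 2 f (rs K τ) (pe hg Ω' (1 - X) P) = pe hg Ω' (1 - X) P := by
    intro τ
    have e1 : jm 2 f (rs K τ) P = P + jm 2 f ι (c (res τ)) := by rw [hT]; abel
    have e2 : pe hg Ω' (1 - X) (jm 2 f ι (c (res τ))) = 0 := (hc2 (res τ)).map ι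
    rw [jm_pe, e1, map_add, e2, add_zero]
  obtain ⟨Q, hQ⟩ := fixed_class (E := E) H hg (pe hg Ω' (1 - X) P) hPP
  obtain ⟨I, G, hIQ, hIc, hG, hN⟩ := exists_rep H hg Q
  obtain ⟨t, ht1, ht2⟩ := kcJ H hg hIQ hIc (lp_coprime hG) hN hQ.symm
  -- the polynomial over `E`
  have hgE := hg.up E
  have hfE : f.map (algebraMap K E) ≠ 0 := hgE.monic.ne_zero
  have hsE : ((f.map (algebraMap K E)).map (algebraMap E Ω')).Splits := by
    rw [map_L]
    exact splits_up hg
  have hodd : Odd (f.map (algebraMap K E)).natDegree := by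
    rw [← Nat.coprime_two_left]
    exact hgE.cop
  obtain ⟨l, s, hl, hls⟩ := h2 E Ω' (f.map (algebraMap K E)) hgE.monic hodd hsE G hG
  -- every root comes from `Ω`
  have hroot : ∀ e' : Ω', Rt f e' → ∃ e : Ω, Rt f e ∧ ι e = e' := by
    intro e' he'
    have hsp : (f.map (algebraMap K Ω)).Splits := splits_up hg
    have hm : (f.map (algebraMap K Ω')).roots = (f.map (algebraMap K Ω)).roots.map ι := by
      rw [← map_alg ι, hsp.roots_map]
      rfl
    have h3 : e' ∈ (f.map (algebraMap K Ω')).roots := (rt_mem hg.monic.ne_zero e').1 he'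
    rw [hm, Multiset.mem_map] at h3
    obtain ⟨e, he, hee⟩ := h3
    exact ⟨e, (rt_mem hg.monic.ne_zero e).2 he, hee⟩
  choose! inv hinv1 hinv2 using hroot
  -- the equivariant function
  have hγ : ∀ (τ : Ω' ≃ₐ[E] Ω') (e : Ω'), Rt (f.map (algebraMap K E)) e →
      τ ((fun e => ι (b (inv e)) / t e) e) = (fun e => ι (b (inv e)) / t e) (τ e) := by
    intro τ e he
    rw [rt_up] at he
    have hτe : Rt f (τ e) := he.map (rs K τ)
    have e1 : inv (τ e) = res τ (inv e) := by
      apply ι.injective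
      change ι (inv (τ e)) = ι (res τ (inv e))
      rw [hinv2 _ hτe, ← hres, hinv2 _ he]
    have e2 : τ (ι (b (inv e))) = chi hg (τ e) (jm 2 f (rs K τ) P - P) * ι (b (inv (τ e))) := by
      rw [hres, hk.gal (res τ) (inv e) (hinv1 e he), map_mul, ← hT, ← e1,
        ← chi_map H hg (hc2 _) (hinv1 _ hτe) ι, hinv2 _ hτe]
    have e3 := ht2 τ e he (hTT τ)
    have e4 := chi_ne H hg (hTT τ) hτe
    simp only
    rw [map_div₀, e2, e3]
    exact mul_div_mul_left _ _ e4
  obtain ⟨s', hs'⟩ := h1 E Ω' (f.map (algebraMap K E)) hgE.sep (fun e => ι (b (inv e)) / t e) hγ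
  refine ⟨l, s' * s, hl, ?_⟩
  apply dvd_of_roots hgE.sep hsE
  intro e he
  have he' := he
  rw [rt_up] at he'
  obtain ⟨q1, q2, q3⟩ := ht1 e he'
  have q4 := hls e he
  have q5 := hs' e he
  have q6 : aeval e (h.map (algebraMap K E)) = ι (b (inv e)) ^ 2 := by
    rw [aeval_map_algebraMap, ← map_pow, (hk.val (inv e) (hinv1 e he')).2, ← aeval_algHom_apply,
      hinv2 e he']
  have hN0 : ((f.map (algebraMap K Ω')).roots.map fun β' => aeval β' G).prod ≠ 0 := by
    have := prod_roots_ne (Ω := Ω') hfE (G := G) (fun e he => by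
      rw [rt_up] at he
      exact (ht1 e he).2.1)
    rwa [map_L] at this
  rw [map_L, natDegree_map] at q4
  rw [map_sub, map_mul, map_pow, map_mul, q6, q5, sub_eq_zero]
  apply mul_right_cancel₀ hN0
  have q7 : ι (b (inv e)) ^ 2 = (ι (b (inv e)) / t e) ^ 2 * t e ^ 2 := by
    rw [div_pow, div_mul_cancel₀ _ (pow_ne_zero 2 q1)]
  calc ι (b (inv e)) ^ 2 * aeval e (l.map fun p => (-1) ^ p.1.natDegree * p.1).prod *
        ((f.map (algebraMap K Ω')).roots.map fun β' => aeval β' G).prod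
      = (ι (b (inv e)) / t e) ^ 2 * (t e ^ 2 *
          ((f.map (algebraMap K Ω')).roots.map fun β' => aeval β' G).prod) *
          aeval e (l.map fun p => (-1) ^ p.1.natDegree * p.1).prod := by rw [q7]; ring
    _ = (ι (b (inv e)) / t e) ^ 2 * (aeval e G ^ f.natDegree *
          aeval e (l.map fun p => (-1) ^ p.1.natDegree * p.1).prod) := by rw [q3]; ring
    _ = _ := by rw [q4]; ring

end Pool.Agent.N424.JB
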